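import Mathlib

namespace Pool.Agent.Results.MP_5a868e_co.NotPR

open MvPolynomial

/-- `P d`: nonzero polynomials in countably many variables with coefficients in `ℕ`,
zero constant term and degree at most `d` in each single variable. -/
def P (d : ℕ) : Set (MvPolynomial ℕ ℕ) :=
  {p | p ≠ 0 ∧ coeff 0 p = 0 ∧ ∀ i, degreeOf i p ≤ d}

/-- largest degree in a single variable -/
noncomputable def delta (p : MvPolynomial ℕ ℕ) : ℕ := p.vars.sup (fun i => degreeOf i p)

def Flag (p : MvPolynomial ℕ ℕ) : Prop :=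
  ∃ S : Set ℕ, (∃ i ∈ S, degreeOf i p = delta p) ∧ (∃ j ∉ S, degreeOf j p = delta p) ∧
    ∀ m ∈ p.support, ∀ i ∈ S, ∀ j ∉ S, degreeOf i p = delta p → degreeOf j p = delta p →
      m i = 0 ∨ m j = 0

lemma exists_mon {p : MvPolynomial ℕ ℕ} {i : ℕ} (h : degreeOf i p ≠ 0) :
    ∃ m ∈ p.support, m i ≠ 0 := by
  by_contra hc
  push Not at hc
  apply h
  have : degreeOf i p ≤ 0 := degreeOf_le_iff.2 (fun m hm => (hc m hm).le)
  omega

lemma deg_le_delta (p : MvPolynomial ℕ ℕ) (i : ℕ) : degreeOf i p ≤ delta p := by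
  by_cases h : degreeOf i p = 0
  · omega
  · obtain ⟨m, hm, hi⟩ := exists_mon h
    have : i ∈ p.vars := (mem_vars_iff_mem_support i).2 ⟨m, hm, Finsupp.mem_support_iff.2 hi⟩
    exact Finset.le_sup (f := fun i => degreeOf i p) this

lemma delta_le {p : MvPolynomial ℕ ℕ} {d : ℕ} (h : ∀ i, degreeOf i p ≤ d) : delta p ≤ d :=
  Finset.sup_le (fun i _ => h i)

lemma delta_pos {p : MvPolynomial ℕ ℕ} (h0 : p ≠ 0) (hc : coeff 0 p = 0) : 0 < delta p := by
  obtain ⟨m, hm⟩ := support_nonempty.2 h0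
  have hm0 : m ≠ 0 := by
    rintro rfl
    exact (mem_support_iff.1 hm) hc
  obtain ⟨i, hi⟩ : ∃ i, m i ≠ 0 := by
    by_contra hcon
    push Not at hcon
    exact hm0 (Finsupp.ext hcon)
  have h1 : m i ≤ degreeOf i p := monomial_le_degreeOf i hm
  have := deg_le_delta p i
  omega

lemma exists_top {p : MvPolynomial ℕ ℕ} (h : 0 < delta p) : ∃ i, degreeOf i p = delta p := by
  have hne : p.vars.Nonempty := by
    by_contra hc
    rw [Finset.not_nonempty_iff_eq_empty] at hc
    simp [delta, hc] at h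
  obtain ⟨i, _, hi⟩ := Finset.exists_mem_eq_sup p.vars hne (fun i => degreeOf i p)
  exact ⟨i, hi.symm⟩

lemma mem_supp_add {p q : MvPolynomial ℕ ℕ} {m : ℕ →₀ ℕ} :
    m ∈ (p + q).support ↔ m ∈ p.support ∨ m ∈ q.support := by
  simp only [mem_support_iff, coeff_add]
  omega

lemma mem_supp_mul {p q : MvPolynomial ℕ ℕ} {m n : ℕ →₀ ℕ} (hm : m ∈ p.support)
    (hn : n ∈ q.support) : m + n ∈ (p * q).support := by
  classical
  rw [mem_support_iff] at *
  rw [coeff_mul]
  intro h0
  rw [Finset.sum_eq_zero_iff] at h0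
  have h1 := h0 (m, n) (by simp)
  exact Nat.mul_ne_zero hm hn h1

lemma deg_add (p q : MvPolynomial ℕ ℕ) (i : ℕ) :
    degreeOf i (p + q) = max (degreeOf i p) (degreeOf i q) := by
  apply le_antisymm (degreeOf_add_le i p q)
  apply max_le
  · exact degreeOf_le_iff.2 (fun m hm => monomial_le_degreeOf i (mem_supp_add.2 (Or.inl hm)))
  · exact degreeOf_le_iff.2 (fun m hm => monomial_le_degreeOf i (mem_supp_add.2 (Or.inr hm)))

lemma key {x y : MvPolynomial ℕ ℕ} (hx : x ≠ 0) (hy : y ≠ 0) (hpos : 0 < delta x)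
    (h1 : delta y = delta x) (h2 : delta (x + y) = delta x) (h3 : delta (x * y) = delta x) :
    Flag (x + y) ∧ ¬ Flag (x * y) := by
  have hmul : ∀ i, degreeOf i (x * y) = degreeOf i x + degreeOf i y :=
    fun i => degreeOf_mul_eq hx hy
  have hle : ∀ i, degreeOf i x + degreeOf i y ≤ delta x := fun i => by
    have := deg_le_delta (x * y) i
    rw [hmul, h3] at this
    exact this
  obtain ⟨a, ha⟩ := exists_top hpos
  obtain ⟨b, hb⟩ := exists_top (p := y) (by omega)
  rw [h1] at hb
  constructor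
  · refine ⟨{i | degreeOf i x = delta x}, ⟨a, ha, ?_⟩, ⟨b, ?_, ?_⟩, ?_⟩
    · rw [deg_add, h2]; have := hle a; omega
    · have := hle b
      simp only [Set.mem_ofPred_eq]; omega
    · rw [deg_add, h2]; have := hle b; omega
    · intro m hm i hi j hj _ hjd
      simp only [Set.mem_ofPred_eq] at hi hj
      rw [deg_add, h2] at hjd
      have hi' := hle i
      have hj' := hle j
      rcases mem_supp_add.1 hm with h | h
      · right
        have := monomial_le_degreeOf j h
        omega
      · left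
        have := monomial_le_degreeOf i h
        omega
  · rintro ⟨S, ⟨i, hiS, hi⟩, ⟨j, hjS, hj⟩, hS⟩
    rw [h3] at hi hj hS
    have haT : degreeOf a (x * y) = delta x := by rw [hmul]; have := hle a; omega
    have hbT : degreeOf b (x * y) = delta x := by rw [hmul]; have := hle b; omega
    obtain ⟨ma, hma, hma'⟩ := exists_mon (p := x) (i := a) (by omega)
    obtain ⟨mb, hmb, hmb'⟩ := exists_mon (p := y) (i := b) (by omega)
    -- two top variables, one occurring in x and one in y, lie on the same side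
    have same : ∀ u v, degreeOf u (x * y) = delta x → degreeOf v (x * y) = delta x →
        degreeOf u x ≠ 0 → degreeOf v y ≠ 0 → (u ∈ S ↔ v ∈ S) := by
      intro u v hu hv hux hvy
      obtain ⟨m, hm, hm'⟩ := exists_mon hux
      obtain ⟨n, hn, hn'⟩ := exists_mon hvy
      have hmn := mem_supp_mul hm hn
      constructor
      · intro huS
        by_contra hvS
        have := hS _ hmn u huS v hvS hu hv
        simp only [Finsupp.add_apply] at this
        omega
      · intro hvS
        by_contra huS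
        have := hS _ hmn v hvS u huS hv hu
        simp only [Finsupp.add_apply] at this
        omega
    have hab : a ∈ S ↔ b ∈ S := same a b haT hbT (by omega) (by omega)
    have all : ∀ u, degreeOf u (x * y) = delta x → (u ∈ S ↔ a ∈ S) := by
      intro u hu
      by_cases hux : degreeOf u x = 0
      · have huy : degreeOf u y ≠ 0 := by rw [hmul] at hu; omega
        exact (same a u haT hu (by omega) huy).symm
      · exact (same u b hu hbT hux (by omega)).trans hab.symm
    exact hjS ((all j hj).2 ((all i hi).1 hiS))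

theorem result : ∀ d : ℕ, 1 ≤ d → ∃ r : ℕ, 1 ≤ r ∧ ∃ c : P d → Fin r,
    ¬ ∃ (x y : MvPolynomial ℕ ℕ) (hx : x ∈ P d) (hy : y ∈ P d) (hs : x + y ∈ P d)
      (hm : x * y ∈ P d), c ⟨x, hx⟩ = c ⟨y, hy⟩ ∧ c ⟨x, hx⟩ = c ⟨x + y, hs⟩ ∧
        c ⟨x, hx⟩ = c ⟨x * y, hm⟩ := by
  classical
  intro d _
  let c0 : P d → Fin (d + 1) × Bool := fun p =>
    (⟨delta p.1, Nat.lt_succ_of_le (delta_le p.2.2.2)⟩, decide (Flag p.1))
  let e := Fintype.equivFin (Fin (d + 1) × Bool)
  refine ⟨Fintype.card (Fin (d + 1) × Bool), Fintype.card_pos, fun p => e (c0 p), ?_⟩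
  rintro ⟨x, y, hx, hy, hs, hm, h1, h2, h3⟩
  have g1 := e.injective h1
  have g2 := e.injective h2
  have g3 := e.injective h3
  simp only [c0, Prod.mk.injEq, Fin.mk.injEq, decide_eq_decide] at g1 g2 g3
  obtain ⟨k1, k2⟩ := key hx.1 hy.1 (delta_pos hx.1 hx.2.1) g1.1.symm g2.1.symm g3.1.symm
  exact k2 (g3.2.1 (g2.2.2 k1))

end Pool.Agent.Results.MP_5a868e_co.NotPR
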